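import Pool.Agent.H895R3.NU.J7

/-!
# Least binomial coefficient with all prime factors above `k`: `g(k) ≤ e^((1-c)k) < lcm(1, …, k)`

`g(k)` is the least `m ≥ k + 2` such that every prime factor of `m.choose k` exceeds `k`.  The recorded upper
bound is `g(k) ≤ e^((1+o(1))k)` (Ecklund, Erdős, Selfridge).  We prove `g(k) ≤ e^((1-c)k)` for some `c > 0` and
all large `k`; in particular `g(k) < lcm(1, …, k)` for all large `k`.

Proof.  We look for `m = (a + b) E - 1`, where `E` is divisible by `p^(1 + ⌊log_p k⌋)` for the primes `p ≤ δk`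
and by `p` for the other primes `p ≤ 3k/4`; then `p ∤ m.choose k` for `p ≤ δk`, and for the other `p ≤ k` it
suffices, by Lucas' theorem, that `m mod p ≥ k mod p` and `⌊m/p⌋ mod p ≥ ⌊k/p⌋`.  The first condition is
automatic for `p ≤ 3k/4`.  For the primes of `(3k/4, k]` it is a window condition of positive proportion, and
the number of pairs `a, b ≤ N` which satisfy all of them is at least half of the expected number, for an `N`
which is smaller than the product of these primes by a factor `e^(ck)`: the frequencies which matter in the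
expansion in characters have more than `D` nonzero coordinates, all but `K - D` of which are determined by the
others, and every nonzero coordinate costs a factor `cos(π/24) < 1`.  The same estimate in residue classes
modulo `p` and `p²` bounds the number of pairs for which the second condition fails for some `p`.
-/

namespace Pool.Agent.Results.MP_d5700b_nt.UpperExponent

open Finset

/-- every prime factor of `m.choose k` exceeds `k` -/
def AllPrimesAbove (k m : ℕ) : Prop := ∀ p : ℕ, p.Prime → p ∣ m.choose k → k < p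

/-- `g(k)`, the least `m ≥ k + 2` such that every prime factor of `m.choose k` exceeds `k` -/
noncomputable def g (k : ℕ) : ℕ := sInf {m : ℕ | k + 2 ≤ m ∧ AllPrimesAbove k m}

/-- the product of the primes up to `k` divides `lcm(1, …, k)` -/
lemma theta_le_log_lcm (k : ℕ) :
    Chebyshev.theta (k : ℝ) ≤ Real.log (((Finset.Icc 1 k).lcm id : ℕ) : ℝ) := by
  have h1 : ∏ p ∈ (Ioc 0 k).filter Nat.Prime, p ∣ (Finset.Icc 1 k).lcm id := by
    apply Finset.prod_primes_dvd
    · intro p hp
      exact (mem_filter.1 hp).2.prime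
    · intro p hp
      rw [mem_filter, mem_Ioc] at hp
      exact dvd_lcm (f := id) (mem_Icc.2 ⟨hp.1.1, hp.1.2⟩)
  have h2 : (Finset.Icc 1 k).lcm id ∣ k.factorial := by
    apply Finset.lcm_dvd
    intro i hi
    rw [mem_Icc] at hi
    exact Nat.dvd_factorial hi.1 hi.2
  have h3 : 0 < (Finset.Icc 1 k).lcm id := Nat.pos_of_dvd_of_pos h2 (Nat.factorial_pos k)
  have h4 := Nat.le_of_dvd h3 h1
  have h5 : Chebyshev.theta (k : ℝ) = Real.log ((∏ p ∈ (Ioc 0 k).filter Nat.Prime, p : ℕ) : ℝ) := by
    unfold Chebyshev.theta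
    rw [Nat.floor_natCast]
    push_cast
    rw [Real.log_prod]
    intro p hp
    have := (mem_filter.1 hp).2.pos
    positivity
  rw [h5]
  apply Real.log_le_log
  · have : 0 < ∏ p ∈ (Ioc 0 k).filter Nat.Prime, p := prod_pos fun p hp => (mem_filter.1 hp).2.pos
    exact_mod_cast this
  · exact_mod_cast h4

/-- **`g(k) ≤ e^((1-c)k)`**, and `g(k) < lcm(1, …, k)`, for all large `k`. -/
theorem result :
    (∃ c : ℝ, 0 < c ∧ ∃ k₀ : ℕ, ∀ k : ℕ, k₀ ≤ k →
      k + 2 ≤ g k ∧ AllPrimesAbove k (g k) ∧ (g k : ℝ) ≤ Real.exp ((1 - c) * k)) ∧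
    (∃ k₀ : ℕ, ∀ k : ℕ, k₀ ≤ k → g k < (Finset.Icc 1 k).lcm id) := by
  obtain ⟨c, hc, k₀, h⟩ := Pool.Agent.H895R3.NU.g_upper
  have hmain : ∀ k : ℕ, k₀ ≤ k →
      k + 2 ≤ g k ∧ AllPrimesAbove k (g k) ∧ (g k : ℝ) ≤ Real.exp ((1 - c) * k) := by
    intro k hk
    obtain ⟨n, h1, h2, h3⟩ := h k hk
    have hn : n ∈ {m : ℕ | k + 2 ≤ m ∧ AllPrimesAbove k m} := by
      refine ⟨h1, fun p hp hd => ?_⟩
      by_contra hle
      exact h3 p hp (not_lt.1 hle) hd
    have hmem : k + 2 ≤ g k ∧ AllPrimesAbove k (g k) := Nat.sInf_mem ⟨n, hn⟩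
    have hle : g k ≤ n := Nat.sInf_le hn
    have hle' : (g k : ℝ) ≤ n := by exact_mod_cast hle
    exact ⟨hmem.1, hmem.2, hle'.trans h2⟩
  refine ⟨⟨c, hc, k₀, hmain⟩, ?_⟩
  obtain ⟨N₀, hth⟩ := Pool.Agent.H895R3.NU.theta_close (c / 2) (by positivity)
  refine ⟨k₀ + N₀ + 1, fun k hk => ?_⟩
  have h1 := (hmain k (by omega)).2.2
  have h2 := abs_le.1 (hth k (by omega))
  have h3 := theta_le_log_lcm k
  have hk0 : (0 : ℝ) < k := by exact_mod_cast (by omega : 0 < k)
  have h4 : (1 - c) * k < Real.log (((Finset.Icc 1 k).lcm id : ℕ) : ℝ) := by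
    have h5 : 0 < c * k := by positivity
    linarith [h2.1]
  have h6 : 0 < (Finset.Icc 1 k).lcm id := by
    have h7 : (Finset.Icc 1 k).lcm id ∣ k.factorial := by
      apply Finset.lcm_dvd
      intro i hi
      rw [mem_Icc] at hi
      exact Nat.dvd_factorial hi.1 hi.2
    exact Nat.pos_of_dvd_of_pos h7 (Nat.factorial_pos k)
  have h8 : (0 : ℝ) < (((Finset.Icc 1 k).lcm id : ℕ) : ℝ) := by exact_mod_cast h6
  have h9 := Real.exp_lt_exp.mpr h4
  rw [Real.exp_log h8] at h9
  have h10 : (g k : ℝ) < (((Finset.Icc 1 k).lcm id : ℕ) : ℝ) := h1.trans_lt h9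
  exact_mod_cast h10

end Pool.Agent.Results.MP_d5700b_nt.UpperExponent
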